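import Mathlib

set_option autoImplicit false
open Filter Topology MeasureTheory Set

namespace Pool.Agent.Results.MP_e444d1_an.None

/-- completely monotone on `(0,∞)` -/
def CM (m : ℝ → ℝ) : Prop :=
  ContDiffOn ℝ (⊤ : ℕ∞) m (Ioi 0) ∧ ∀ (k : ℕ) (t : ℝ), 0 < t → 0 ≤ (-1) ^ k * iteratedDeriv k m t

/-- complete Bernstein function on `(0,∞)` -/
def IsCBF (F : ℝ → ℝ) : Prop :=
  ∃ (a b : ℝ) (m : ℝ → ℝ), 0 ≤ a ∧ 0 ≤ b ∧ CM m ∧
    IntegrableOn (fun t => min 1 t * m t) (Ioi 0) ∧
    ∀ x, 0 < x → F x = a + b * x + ∫ t in Ioi (0 : ℝ), (1 - Real.exp (-(x * t))) * m t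

theorem result (p N D : ℝ) (hp : 1 < p) (hN : -1 < N) (hND : N < D) (hD : D ≤ 0) :
    ¬ ∃ F : ℝ → ℝ, IsCBF F ∧ Tendsto F (𝓝[>] 0) (𝓝 ((p ^ 0 + N) / (p ^ 0 + D))) ∧
      ∀ n : ℕ, 1 ≤ n → F n = (p ^ n + N) / (p ^ n + D) := by
  rintro ⟨F, ⟨a, b, m, ha, hb, ⟨hm, hm'⟩, hint, hF⟩, -, hn⟩
  have m0 : ∀ t, 0 < t → 0 ≤ m t := fun t ht => by simpa using hm' 0 t ht
  have manti : AntitoneOn m (Ioi 0) := by
    refine antitoneOn_of_deriv_nonpos (convex_Ioi 0) hm.continuousOn ?_ fun t ht => ?_
    · rw [interior_Ioi]; exact hm.differentiableOn (by simp)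
    · rw [interior_Ioi] at ht
      simpa using hm' 1 t ht
  have hI : ∀ x, 0 < x → IntegrableOn (fun t => (1 - Real.exp (-(x * t))) * m t) (Ioi 0) := by
    intro x hx
    refine Integrable.mono' (hint.const_mul (1 + x)) ?_ ?_
    · exact ContinuousOn.aestronglyMeasurable
        (ContinuousOn.mul (by fun_prop) hm.continuousOn) measurableSet_Ioi
    · filter_upwards [ae_restrict_mem measurableSet_Ioi] with t ht
      have ht0 : 0 < t := ht
      have h1 : Real.exp (-(x * t)) ≤ 1 := Real.exp_le_one_iff.2 (by nlinarith)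
      have h2 := Real.add_one_le_exp (-(x * t))
      have h3 := Real.exp_pos (-(x * t))
      rw [Real.norm_of_nonneg (mul_nonneg (by linarith) (m0 t ht0)), ← mul_assoc]
      refine mul_le_mul_of_nonneg_right ?_ (m0 t ht0)
      rcases le_total 1 t with h | h
      · rw [min_eq_left h]; linarith
      · rw [min_eq_right h]; nlinarith
  have hp0 : 0 < p := by linarith
  have hden : ∀ n : ℕ, (1 + D) * p ^ n ≤ p ^ n + D := fun n => by
    nlinarith [one_le_pow₀ hp.le (n := n)]
  have hD1 : 0 < 1 + D := by linarith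
  have hden0 : ∀ n : ℕ, 0 < p ^ n + D := fun n => lt_of_lt_of_le (by positivity) (hden n)
  have hup : ∀ n : ℕ, 1 ≤ n → F (n + 1) - F n ≤ (D - N) / (1 + D) * p⁻¹ ^ n := by
    intro n h
    have e := hn (n + 1) (by omega)
    push_cast at e
    rw [e, hn n h]
    have h1 : (p ^ (n + 1) + N) / (p ^ (n + 1) + D) ≤ 1 := by
      rw [div_le_one (hden0 _)]; linarith
    have h2 : 1 - (p ^ n + N) / (p ^ n + D) = (D - N) / (p ^ n + D) := by
      have := (hden0 n).ne'
      field_simp; ring
    have h3 : (D - N) / (p ^ n + D) ≤ (D - N) / ((1 + D) * p ^ n) :=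
      div_le_div_of_nonneg_left (by linarith) (by positivity) (hden n)
    have h4 : (D - N) / ((1 + D) * p ^ n) = (D - N) / (1 + D) * p⁻¹ ^ n := by
      rw [inv_pow]; field_simp
    linarith
  have hlow : ∀ s, 0 < s → ∀ n : ℕ, 1 ≤ n →
      b + (1 - Real.exp (-s)) * m (2 * s) * s * Real.exp (-(2 * s)) ^ n ≤ F (n + 1) - F n := by
    intro s hs n h
    have hn0 : (0 : ℝ) < n := by exact_mod_cast h
    rw [hF _ hn0, hF _ (by linarith)]
    have h1 := integral_sub (hI (n + 1) (by linarith)) (hI n hn0)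
    have h2 : ∫ t in Ioi (0 : ℝ), (Ioc s (2 * s)).indicator
        (fun _ => (1 - Real.exp (-s)) * m (2 * s) * Real.exp (-(2 * s)) ^ n) t ≤
        ∫ t in Ioi (0 : ℝ), ((1 - Real.exp (-((n + 1) * t))) * m t -
          (1 - Real.exp (-(n * t))) * m t) := by
      refine setIntegral_mono_on ?_ ((hI (n + 1) (by linarith)).sub (hI n hn0)) measurableSet_Ioi
        fun t ht => ?_
      · exact (((integrable_indicator_iff measurableSet_Ioc).2
          (integrableOn_const (by simp)))).integrableOn
      · have ht0 : 0 < t := ht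
        have e : (1 - Real.exp (-((n + 1) * t))) * m t - (1 - Real.exp (-(n * t))) * m t =
            (1 - Real.exp (-t)) * m t * Real.exp (-t) ^ n := by
          rw [← Real.exp_nat_mul, show -((n + 1) * t) = n * -t + -t by ring, Real.exp_add,
            show -(n * t) = n * -t by ring]
          ring
        rw [e]
        have h3 : 0 ≤ 1 - Real.exp (-t) := sub_nonneg.2 (Real.exp_le_one_iff.2 (by linarith))
        have h4 := m0 t ht0
        by_cases hts : t ∈ Ioc s (2 * s)
        · rw [indicator_of_mem hts]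
          have h5 := m0 (2 * s) (by linarith)
          gcongr
          · exact hts.1.le
          · exact manti ht (show 0 < 2 * s by linarith) hts.2
          · exact hts.2
        · rw [indicator_of_notMem hts]; positivity
    rw [integral_indicator measurableSet_Ioc, Measure.restrict_restrict measurableSet_Ioc,
      inter_eq_left.2 (show Ioc s (2 * s) ⊆ Ioi 0 from fun t ht => lt_trans hs ht.1), setIntegral_const,
      Real.volume_real_Ioc_of_le (by linarith), smul_eq_mul] at h2
    nlinarith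
  have hzero : ∀ s, 0 < s → 2 * s < Real.log p → m (2 * s) = 0 ∧ b = 0 := by
    intro s hs hsp
    have h3 : 0 < 1 - Real.exp (-s) := sub_pos.2 (Real.exp_lt_one_iff.2 (by linarith))
    have h5 := m0 (2 * s) (by linarith)
    have hr : p⁻¹ * Real.exp (2 * s) < 1 := by
      rw [inv_mul_lt_iff₀ hp0, mul_one]
      exact (Real.lt_log_iff_exp_lt hp0).1 hsp
    have t1 := (tendsto_pow_atTop_nhds_zero_of_lt_one (by positivity) hr).const_mul
      ((D - N) / (1 + D))
    have t2 := (tendsto_pow_atTop_nhds_zero_of_lt_one (r := p⁻¹) (by positivity)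
      (inv_lt_one_of_one_lt₀ hp)).const_mul ((D - N) / (1 + D))
    rw [mul_zero] at t1 t2
    constructor
    · have : (1 - Real.exp (-s)) * m (2 * s) * s ≤ 0 := by
        refine ge_of_tendsto t1 ?_
        filter_upwards [eventually_ge_atTop 1] with n h
        have h6 := (hlow s hs n h).trans (hup n h)
        have h7 := mul_le_mul_of_nonneg_right ((le_add_of_nonneg_left hb).trans h6)
          (show 0 ≤ Real.exp (2 * s) ^ n by positivity)
        rwa [mul_assoc, ← mul_pow, ← Real.exp_add, neg_add_cancel, Real.exp_zero, one_pow, mul_one,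
          mul_assoc _ (p⁻¹ ^ n), ← mul_pow] at h7
      by_contra hc
      exact absurd this (not_le.2 (by have := lt_of_le_of_ne h5 (Ne.symm hc); positivity))
    · refine le_antisymm (ge_of_tendsto t2 ?_) hb
      filter_upwards [eventually_ge_atTop 1] with n h
      exact (le_add_of_nonneg_right (by positivity)).trans ((hlow s hs n h).trans (hup n h))
  have hl : 0 < Real.log p := Real.log_pos hp
  have hm0 : ∀ t, 0 < t → m t = 0 := by
    intro t ht
    have h1 : 0 < min t (Real.log p / 2) := lt_min ht (by linarith)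
    have h2 := (hzero (min t (Real.log p / 2) / 2) (by linarith)
      (by linarith [min_le_right t (Real.log p / 2)])).1
    rw [mul_div_cancel₀ _ two_ne_zero] at h2
    exact le_antisymm (h2 ▸ manti h1 ht (min_le_left _ _)) (m0 t ht)
  have hc : ∀ x, 0 < x → F x = a := by
    intro x hx
    rw [hF x hx, (hzero (Real.log p / 4) (by linarith) (by linarith)).2,
      setIntegral_eq_zero_of_forall_eq_zero fun t ht => by rw [hm0 t ht, mul_zero]]
    simp
  have h1 := hn 1 le_rfl
  have h2 := hn 2 (by norm_num)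
  rw [hc _ (by norm_num)] at h1 h2
  rw [h1, div_eq_div_iff (hden0 1).ne' (hden0 2).ne'] at h2
  nlinarith [mul_pos (sub_pos.2 hND) (mul_pos hp0 (sub_pos.2 hp))]

end Pool.Agent.Results.MP_e444d1_an.None
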